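import Pool.Agent.LLV.Model
import Pool.Agent.HKO.Basic

/-!
# The Looijenga–Lunts–Verbitsky action from commuting Lefschetz dual operators
-/

open scoped TensorProduct

namespace Pool.Agent.LLV

noncomputable section

namespace CV

variable {n : ℕ} {V A : Type*} [AddCommGroup V] [Module ℚ V] [Ring A] [Algebra ℚ A]
  (X : HodgeLLV n V A)

omit [AddCommGroup V] [Module ℚ V] in
theorem neg_mulE (f g : Module.End ℚ A) : (-f) * g = -(f * g) := by
  ext a
  rfl

omit [AddCommGroup V] [Module ℚ V] in
theorem mul_negE (f g : Module.End ℚ A) : f * (-g) = -(f * g) := by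
  ext a
  exact map_neg f (g a)

omit [AddCommGroup V] [Module ℚ V] in
theorem neg_smulE (c : ℚ) (f : Module.End ℚ A) : (-c) • f = -(c • f) := by
  ext a
  exact neg_smul c (f a)

/-- The derivations of degree zero. -/
def der : V →ₗ[ℚ] V →ₗ[ℚ] Module.End ℚ A :=
  LinearMap.mk₂ ℚ (fun x y => X.cup x * X.lam y - X.lam y * X.cup x - X.q x y • X.deg)
    (by
      intro x x' y
      simp only [map_add, LinearMap.add_apply, add_mul, mul_add, add_smul]
      abel)
    (by
      intro c x y
      simp only [map_smul, LinearMap.smul_apply, smul_mul_assoc, mul_smul_comm, smul_sub,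
        smul_assoc])
    (by
      intro x y y'
      simp only [map_add, add_mul, mul_add, add_smul]
      abel)
    (by
      intro c x y
      simp only [map_smul, smul_mul_assoc, mul_smul_comm, smul_sub, smul_assoc])

theorem der_apply (x y : V) :
    der X x y = X.cup x * X.lam y - X.lam y * X.cup x - X.q x y • X.deg := rfl

theorem cup_apply (x : V) (a : A) : X.cup x a = X.cls x * a := rfl

theorem cls_mem (x : V) : X.cls x ∈ X.gr 2 := X.cls_range ▸ LinearMap.mem_range_self _ x

theorem deg_cup (y : V) : X.deg * X.cup y = X.cup y * X.deg + X.cup y := by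
  let := X.graded
  ext a
  show X.deg (X.cls y * a) = X.cls y * X.deg a + X.cls y * a
  induction a using DirectSum.Decomposition.inductionOn X.gr with
  | zero => simp
  | @homogeneous i m =>
    have h1 : X.cls y * (m : A) ∈ X.gr (2 + i) := SetLike.mul_mem_graded (cls_mem X y) m.2
    rw [X.deg_apply _ _ h1, X.deg_apply _ _ m.2, mul_smul_comm]
    push_cast
    module
  | add m m' h h' =>
    rw [mul_add, map_add, h, h', map_add, mul_add]
    abel

theorem deg_lam (y : V) : X.deg * X.lam y = X.lam y * X.deg - X.lam y := by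
  ext a
  exact X.lam_deg y a

theorem cup_cup (x y : V) : X.cup x * X.cup y = X.cup y * X.cup x := by
  ext a
  show X.cls x * (X.cls y * a) = X.cls y * (X.cls x * a)
  have h := X.comm 2 2 _ _ (cls_mem X x) (cls_mem X y)
  rw [← mul_assoc, h, ← mul_assoc]
  norm_num

theorem lam_lam (x y : V) : X.lam x * X.lam y = X.lam y * X.lam x := by
  ext a
  exact X.lam_comm x y a

theorem der_self (x : V) : der X x x = 0 := by
  ext a
  have h := X.lam_sl2 x a
  show X.cls x * X.lam x a - X.lam x (X.cls x * a) - X.q x x • X.deg a = 0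
  rw [h, sub_self]

theorem der_swap (x y : V) : der X x y = - der X y x := by
  have h := der_self X (x + y)
  simp only [map_add, LinearMap.add_apply, der_self, zero_add, add_zero] at h
  rw [add_comm] at h
  exact eq_neg_of_add_eq_zero_left h

theorem deg_der (x y : V) : X.deg * der X x y = der X x y * X.deg := by
  have h1 := deg_cup X x
  have h2 := deg_lam X y
  rw [der_apply, mul_sub, mul_sub, ← mul_assoc, ← mul_assoc, h1, h2]
  rw [add_mul, sub_mul, mul_assoc (X.cup x), mul_assoc (X.lam y), h1, h2]
  simp only [mul_add, mul_sub, sub_mul, mul_smul_comm, smul_mul_assoc, mul_assoc]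
  abel

theorem der_mul (x y : V) (a b : A) : der X x y (a * b) = der X x y a * b + a * der X x y b :=
  X.lam_der x y a b

theorem der_one (x y : V) : der X x y 1 = 0 := by
  have h := der_mul X x y 1 1
  rw [mul_one, mul_one, one_mul] at h
  exact left_eq_add.mp h

theorem der_cls (x y z : V) :
    der X x y (X.cls z) = X.cls (X.q y z • x - X.q x z • y) := by
  have s1 : ∀ x y z, der X x y (X.cls z) = - der X y x (X.cls z) := by
    intro x y z
    rw [der_swap X x y]
    rfl
  have s2 : ∀ x y z, der X x y (X.cls z) + X.q x y • X.cls z =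
      der X z y (X.cls x) + X.q z y • X.cls x := by
    intro x y z
    have h1 : (der X x y + X.q x y • X.deg) * X.cup z - X.cup z * (der X x y + X.q x y • X.deg) =
        (der X z y + X.q z y • X.deg) * X.cup x -
          X.cup x * (der X z y + X.q z y • X.deg) := by
      have h2 := cup_cup X x z
      rw [der_apply, der_apply, sub_add_cancel, sub_add_cancel]
      simp only [sub_mul, mul_sub, mul_assoc]
      rw [← mul_assoc (X.cup z) (X.cup x), ← h2, mul_assoc]
      abel
    have h3 := congrArg (fun f : Module.End ℚ A => f 1) h1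
    simp only [LinearMap.sub_apply, Module.End.mul_apply, LinearMap.add_apply,
      LinearMap.smul_apply, cup_apply, mul_one, der_one, mul_add, mul_zero] at h3
    have h4 : ∀ z, X.deg (X.cls z) = X.cls z + X.cls z * X.deg 1 := by
      intro z
      have h5 := congrArg (fun f : Module.End ℚ A => f 1) (deg_cup X z)
      simp only [Module.End.mul_apply, LinearMap.add_apply, cup_apply, mul_one] at h5
      rw [h5, add_comm]
    rw [h4, h4] at h3
    simp only [smul_add, mul_smul_comm] at h3
    linear_combination (norm := module) h3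
  have s3 : ∀ x y z, der X x y (X.cls z) - X.cls (X.q y z • x - X.q x z • y) =
      der X z y (X.cls x) - X.cls (X.q y x • z - X.q z x • y) := by
    intro x y z
    have h := s2 x y z
    simp only [map_sub, map_smul]
    rw [X.q_symm y x, X.q_symm z x, X.q_symm y z]
    linear_combination (norm := module) h
  have s4 : ∀ x y z, der X x y (X.cls z) - X.cls (X.q y z • x - X.q x z • y) =
      - (der X y x (X.cls z) - X.cls (X.q x z • y - X.q y z • x)) := by
    intro x y z
    rw [s1 x y z]
    simp only [map_sub, map_smul]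
    module
  set S : V → V → V → A := fun x y z =>
    der X x y (X.cls z) - X.cls (X.q y z • x - X.q x z • y) with hS
  have a1 : ∀ x y z, S x y z = S z y x := s3
  have a2 : ∀ x y z, S x y z = - S y x z := s4
  have a3 : S x y z = - S x y z := by
    calc S x y z = S z y x := a1 _ _ _
      _ = - S y z x := a2 _ _ _
      _ = - S x z y := by rw [a1 y z x]
      _ = S z x y := by rw [a2 x z y, neg_neg]
      _ = S y x z := a1 _ _ _
      _ = - S x y z := a2 _ _ _
  have a4 : (2 : ℚ) • S x y z = 0 := by
    rw [two_smul]
    nth_rw 1 [a3]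
    rw [neg_add_cancel]
  have a5 : S x y z = 0 := (smul_eq_zero.mp a4).resolve_left two_ne_zero
  exact sub_eq_zero.mp a5

/-- The bracket of a derivation with a cup product. -/
theorem der_cup (x y z : V) : der X x y * X.cup z =
    X.cup z * der X x y + X.cup (X.q y z • x - X.q x z • y) := by
  ext a
  show der X x y (X.cls z * a) = X.cls z * der X x y a + X.cls (X.q y z • x - X.q x z • y) * a
  rw [der_mul, der_cls, add_comm]

theorem cup_lam (x y : V) : X.cup x * X.lam y =
    X.lam y * X.cup x + der X x y + X.q x y • X.deg := by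
  rw [der_apply]
  abel

/-- The bracket of a derivation with a Lefschetz dual operator. -/
theorem der_lam (x y z : V) : der X x y * X.lam z =
    X.lam z * der X x y + X.lam (X.q y z • x - X.q x z • y) := by
  set U : V → V → V → Module.End ℚ A := fun x y z =>
    der X x y * X.lam z - X.lam z * der X x y - X.lam (X.q y z • x - X.q x z • y) with hU
  have s1 : ∀ x y z, U x y z = - U y x z := by
    intro x y z
    have e1 : der X x y * X.lam z = - (der X y x * X.lam z) := by
      rw [der_swap X x y]
      exact neg_mulE _ _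
    have e2 : X.lam z * der X x y = - (X.lam z * der X y x) := by
      rw [der_swap X x y]
      exact mul_negE _ _
    simp only [hU]
    rw [e1, e2]
    simp only [map_sub, map_smul]
    module
  have s2 : ∀ x y z, U x y z = U x z y := by
    intro x y z
    simp only [hU]
    have h1 := deg_lam X z
    have h2 := deg_lam X y
    have h3 := lam_lam X y z
    have h4 : (X.cup x * X.lam y - X.lam y * X.cup x) * X.lam z -
        X.lam z * (X.cup x * X.lam y - X.lam y * X.cup x) =
        (X.cup x * X.lam z - X.lam z * X.cup x) * X.lam y -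
        X.lam y * (X.cup x * X.lam z - X.lam z * X.cup x) := by
      simp only [sub_mul, mul_sub, mul_assoc]
      rw [h3, ← mul_assoc (X.lam z) (X.lam y), ← h3, mul_assoc]
      abel
    have h5 : ∀ y z, der X x y * X.lam z - X.lam z * der X x y =
        ((X.cup x * X.lam y - X.lam y * X.cup x) * X.lam z -
        X.lam z * (X.cup x * X.lam y - X.lam y * X.cup x)) + X.q x y • X.lam z := by
      intro y z
      rw [der_apply, sub_mul _ (X.q x y • X.deg), mul_sub _ _ (X.q x y • X.deg),
        smul_mul_assoc, mul_smul_comm, deg_lam X z, smul_sub]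
      abel
    rw [h5, h5, h4]
    simp only [map_sub, map_smul]
    rw [X.q_symm y z]
    module
  have a3 : U x y z = - U x y z := by
    calc U x y z = U x z y := s2 _ _ _
      _ = - U z x y := s1 _ _ _
      _ = - U z y x := by rw [s2 z x y]
      _ = U y z x := by rw [s1 z y x, neg_neg]
      _ = U y x z := s2 _ _ _
      _ = - U x y z := s1 _ _ _
  have a4 : (2 : ℚ) • U x y z = 0 := by
    rw [two_smul]
    nth_rw 1 [a3]
    rw [neg_add_cancel]
  have a5 : U x y z = 0 := (smul_eq_zero.mp a4).resolve_left two_ne_zero
  simp only [hU] at a5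
  rw [sub_sub, sub_eq_zero] at a5
  exact a5

/-- The bracket of two derivations. -/
theorem der_der (x y z t : V) : der X x y * der X z t = der X z t * der X x y +
    (der X (X.q y z • x - X.q x z • y) t + der X z (X.q y t • x - X.q x t • y)) := by
  have h1 := der_cup X x y z
  have h2 := der_lam X x y t
  have h3 := deg_der X x y
  set D := der X x y with hD
  set a := X.q y z • x - X.q x z • y with ha
  set b := X.q y t • x - X.q x t • y with hb
  have h4 : X.q a t + X.q z b = 0 := by
    simp only [ha, hb, map_sub, map_smul, LinearMap.sub_apply, LinearMap.smul_apply,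
      smul_eq_mul]
    rw [X.q_symm z x, X.q_symm z y]
    ring
  have e1 : D * (X.cup z * X.lam t) = X.cup z * X.lam t * D + X.cup z * X.lam b +
      X.cup a * X.lam t := by
    rw [← mul_assoc, h1, add_mul, mul_assoc, h2, mul_add, mul_assoc]
  have e2 : D * (X.lam t * X.cup z) = X.lam t * X.cup z * D + X.lam t * X.cup a +
      X.lam b * X.cup z := by
    rw [← mul_assoc, h2, add_mul, mul_assoc, h1, mul_add, mul_assoc]
  rw [der_apply X z t, der_apply X a t, der_apply X z b, mul_sub, mul_sub, e1, e2,
    mul_smul_comm, ← h3, sub_mul, sub_mul, smul_mul_assoc]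
  have e3 : X.q z b • X.deg = - (X.q a t • X.deg) := by
    have e4 : X.q z b = - X.q a t := by linarith
    rw [e4]
    exact neg_smulE _ _
  rw [e3]
  abel

/-- The action of the Lie algebra of the Mukai space. -/
def act : HKO.Mk V →ₗ[ℚ] HKO.Mk V →ₗ[ℚ] Module.End ℚ A :=
  LinearMap.mk₂ ℚ (fun u v => (u.1 * v.2.2 - u.2.2 * v.1) • X.deg +
      X.lam (u.1 • v.2.1 - v.1 • u.2.1) + X.cup (u.2.2 • v.2.1 - v.2.2 • u.2.1) +
      der X u.2.1 v.2.1)
    (by
      intro u u' v
      simp only [Prod.fst_add, Prod.snd_add, map_add, map_sub, map_smul, LinearMap.add_apply,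
        smul_add, add_smul]
      module)
    (by
      intro c u v
      simp only [Prod.smul_fst, Prod.smul_snd, map_sub, map_smul, LinearMap.smul_apply,
        smul_eq_mul]
      module)
    (by
      intro u v v'
      simp only [Prod.fst_add, Prod.snd_add, map_add, map_sub, map_smul, smul_add, add_smul]
      module)
    (by
      intro c u v
      simp only [Prod.smul_fst, Prod.smul_snd, map_sub, map_smul, smul_eq_mul]
      module)

theorem act_apply (u v : HKO.Mk V) : act X u v = (u.1 * v.2.2 - u.2.2 * v.1) • X.deg +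
      (u.1 • X.lam v.2.1 - v.1 • X.lam u.2.1) + (u.2.2 • X.cup v.2.1 - v.2.2 • X.cup u.2.1) +
      der X u.2.1 v.2.1 := by
  have h : act X u v = (u.1 * v.2.2 - u.2.2 * v.1) • X.deg +
      X.lam (u.1 • v.2.1 - v.1 • u.2.1) + X.cup (u.2.2 • v.2.1 - v.2.2 • u.2.1) +
      der X u.2.1 v.2.1 := rfl
  rw [h]
  simp only [map_sub, map_smul]

theorem act_lie (u v z t : HKO.Mk V) : act X u v * act X z t - act X z t * act X u v =
    act X (HKO.wedge X.q u v z) t + act X z (HKO.wedge X.q u v t) := by
  obtain ⟨a, x, b⟩ := u
  obtain ⟨a', x', b'⟩ := v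
  obtain ⟨c, y, d⟩ := z
  obtain ⟨c', y', d'⟩ := t
  have r1 := deg_lam X y
  have r2 := deg_lam X y'
  have r3 := deg_cup X y
  have r4 := deg_cup X y'
  have r5 := deg_der X y y'
  have r6 : X.lam x * X.deg = X.deg * X.lam x + X.lam x := by rw [deg_lam]; abel
  have r7 : X.lam x' * X.deg = X.deg * X.lam x' + X.lam x' := by rw [deg_lam]; abel
  have r8 := lam_lam X x y
  have r9 := lam_lam X x y'
  have r10 := lam_lam X x' y
  have r11 := lam_lam X x' y'
  have r12 : X.lam x * X.cup y = X.cup y * X.lam x - der X y x - X.q y x • X.deg := by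
    rw [cup_lam]; abel
  have r13 : X.lam x * X.cup y' = X.cup y' * X.lam x - der X y' x - X.q y' x • X.deg := by
    rw [cup_lam]; abel
  have r14 : X.lam x' * X.cup y = X.cup y * X.lam x' - der X y x' - X.q y x' • X.deg := by
    rw [cup_lam]; abel
  have r15 : X.lam x' * X.cup y' =
      X.cup y' * X.lam x' - der X y' x' - X.q y' x' • X.deg := by
    rw [cup_lam]; abel
  have r16 : X.lam x * der X y y' =
      der X y y' * X.lam x - X.lam (X.q y' x • y - X.q y x • y') := by
    rw [der_lam]; abel
  have r17 : X.lam x' * der X y y' =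
      der X y y' * X.lam x' - X.lam (X.q y' x' • y - X.q y x' • y') := by
    rw [der_lam]; abel
  have r18 : X.cup x * X.deg = X.deg * X.cup x - X.cup x := by rw [deg_cup]; abel
  have r19 : X.cup x' * X.deg = X.deg * X.cup x' - X.cup x' := by rw [deg_cup]; abel
  have r20 := cup_lam X x y
  have r21 := cup_lam X x y'
  have r22 := cup_lam X x' y
  have r23 := cup_lam X x' y'
  have r24 := cup_cup X x y
  have r25 := cup_cup X x y'
  have r26 := cup_cup X x' y
  have r27 := cup_cup X x' y'
  have r28 : X.cup x * der X y y' =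
      der X y y' * X.cup x - X.cup (X.q y' x • y - X.q y x • y') := by
    rw [der_cup]; abel
  have r29 : X.cup x' * der X y y' =
      der X y y' * X.cup x' - X.cup (X.q y' x' • y - X.q y x' • y') := by
    rw [der_cup]; abel
  have r30 : der X x x' * X.deg = X.deg * der X x x' := (deg_der X x x').symm
  have r31 := der_lam X x x' y
  have r32 := der_lam X x x' y'
  have r33 := der_cup X x x' y
  have r34 := der_cup X x x' y'
  have r35 := der_der X x x' y y'
  have q1 := X.q_symm y x
  have q2 := X.q_symm y' x
  have q3 := X.q_symm y x'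
  have q4 := X.q_symm y' x'
  have d1 := der_swap X y x
  have d2 := der_swap X y' x
  have d3 := der_swap X y x'
  have d4 := der_swap X y' x'
  rw [act_apply, act_apply, act_apply, act_apply]
  simp only [HKO.wedge_apply, HKO.mform_apply, Prod.fst_sub, Prod.snd_sub, Prod.smul_fst,
    Prod.smul_snd, smul_eq_mul, map_sub, map_smul, LinearMap.sub_apply, LinearMap.smul_apply,
    add_mul, mul_add, sub_mul, mul_sub, smul_mul_assoc, mul_smul_comm]
  simp only [r1, r2, r3, r4, r5, r6, r7, r8, r9, r10, r11, r12, r13, r14, r15, r16, r17, r18,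
    r19, r20, r21, r22, r23, r24, r25, r26, r27, r28, r29, r30, r31, r32, r33, r34, r35]
  simp only [map_sub, map_smul, LinearMap.sub_apply, LinearMap.smul_apply]
  simp only [q1, q2, q3, q4, d1, d2, d3, d4]
  module

theorem act_self (u : HKO.Mk V) : act X u u = 0 := by
  rw [act_apply, der_self]
  module

theorem act_be_emb (x : V) : act X HKO.be (HKO.emb x) = X.cup x := by
  rw [act_apply]
  simp [HKO.be]

theorem act_al_emb (x : V) : act X HKO.al (HKO.emb x) = X.lam x := by
  rw [act_apply]
  simp [HKO.al]

theorem act_al_be : act X HKO.al HKO.be = X.deg := by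
  rw [act_apply]
  simp [HKO.al, HKO.be]

theorem act_emb_emb (x y : V) : act X (HKO.emb x) (HKO.emb y) = der X x y := by
  rw [act_apply]
  simp

include X in
theorem one_ne : (1 : A) ≠ 0 := by
  intro h
  obtain ⟨k, -, hk, -⟩ := X.ample
  have h1 : X.cls k = X.cls 0 := by
    rw [← mul_one (X.cls k), ← mul_one (X.cls 0), h, mul_zero, mul_zero]
  have h2 := X.cls_inj h1
  rw [h2, map_zero] at hk
  exact lt_irrefl _ hk

theorem ns_nondeg (x : V) (hx : qC X.q X.sg (1 ⊗ₜ x) = 0)
    (h : ∀ y : V, qC X.q X.sg (1 ⊗ₜ y) = 0 → X.q x y = 0) : x = 0 := by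
  obtain ⟨k, hk, -, hidx⟩ := X.ample
  by_contra hne
  have h1 := hidx x hx (h k hk) hne
  rw [h x hx] at h1
  exact lt_irrefl _ h1

end CV

variable {n : ℕ} {V A : Type*} [AddCommGroup V] [Module ℚ V] [Ring A] [Algebra ℚ A]

/-- The data with the action of the Lie algebra of the Mukai space. -/
def toHK (X : HodgeLLV n V A) : HKO.HKCohomology n V A where
  q := X.q
  q_symm := X.q_symm
  q_nondeg := X.q_nondeg
  gr := X.gr
  graded := X.graded
  finite := X.finite
  comm := X.comm
  gr_zero := X.gr_zero
  gr_top := X.gr_top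
  one_ne := CV.one_ne X
  cls := X.cls
  cls_inj := X.cls_inj
  cls_range := X.cls_range
  act := CV.act X
  act_self := CV.act_self X
  act_lie := CV.act_lie X
  act_cup x a := by
    rw [CV.act_be_emb]
    rfl
  act_deg i a ha := by
    rw [CV.act_al_be]
    exact X.deg_apply i a ha
  act_der x y a b := by
    rw [CV.act_emb_emb]
    exact CV.der_mul X x y a b
  sg := X.sg
  sg_iso := X.sg_iso
  sg_pos := X.sg_pos
  ns_nondeg := CV.ns_nondeg X
  ample := by
    obtain ⟨k, h1, h2, -⟩ := X.ample
    exact ⟨k, h1, h2⟩
  herm := X.herm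
  herm_adj y := by
    rw [CV.act_al_emb]
    exact X.herm_adj y

variable (X : HodgeLLV n V A)

theorem toHK_gr : (toHK X).gr = X.gr := rfl

theorem toHK_q : (toHK X).q = X.q := rfl

theorem toHK_sg : (toHK X).sg = X.sg := rfl

theorem toHK_cls : (toHK X).cls = X.cls := rfl

theorem toHK_cup : (toHK X).cup = X.cup := rfl

theorem toHK_lam : (toHK X).lam = X.lam := by
  apply LinearMap.ext
  intro y
  exact CV.act_al_emb X y

theorem toHK_deg : (toHK X).act HKO.al HKO.be = X.deg := CV.act_al_be X

end

end Pool.Agent.LLV
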