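import Mathlib

/-!
# Hodge–Lefschetz algebras of hyper-Kähler type and Mukai transforms

A `HodgeLLV` is the algebraic structure carried by the rational cohomology `A = H^*(X, ℚ)` of a
projective hyper-Kähler variety `X` of dimension `2n`, with `V = H²(X, ℚ)`: a graded-commutative
algebra with the Beauville–Bogomolov–Fujiki form on `V`, commuting Lefschetz dual operators,
the class `σ` of the symplectic form and a Hodge–Riemann form. A `MukaiTransform` is a rational
linear isomorphism compatible with Hodge types and with contractions by polyvector fields.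
-/

open scoped TensorProduct

namespace Pool.Agent.LLV

noncomputable section

/-- Complex conjugation as a `ℚ`-linear map. -/
def conjQ : ℂ →ₗ[ℚ] ℂ := (starRingEnd ℂ).toRatAlgHom.toLinearMap

/-- Complex conjugation on `ℂ ⊗ V`. -/
def conjV (V : Type*) [AddCommGroup V] [Module ℚ V] : (ℂ ⊗[ℚ] V) →ₗ[ℚ] (ℂ ⊗[ℚ] V) :=
  conjQ.rTensor V

/-- The complex bilinear extension of a bilinear form. -/
def qC {V : Type*} [AddCommGroup V] [Module ℚ V] (q : V →ₗ[ℚ] V →ₗ[ℚ] ℚ) :
    (ℂ ⊗[ℚ] V) →ₗ[ℂ] (ℂ ⊗[ℚ] V) →ₗ[ℂ] ℂ :=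
  LinearMap.BilinForm.baseChange ℂ q

/-- Complexification of a linear family `F : V → End A` of operators: the complex linear family
`ℂ ⊗ V → End (ℂ ⊗ A)` with `z ⊗ x ↦ z • (1 ⊗ F x)`. -/
def opC {V A : Type*} [AddCommGroup V] [Module ℚ V] [AddCommGroup A] [Module ℚ A]
    (F : V →ₗ[ℚ] Module.End ℚ A) : (ℂ ⊗[ℚ] V) →ₗ[ℂ] Module.End ℂ (ℂ ⊗[ℚ] A) :=
  LinearMap.liftBaseChange ℂ (LinearMap.baseChangeHom ℚ ℂ A A ∘ₗ F)

/-- The structure of the rational cohomology algebra `A` of a projective hyper-Kähler variety of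
dimension `2n`; `V` is its part of degree 2. -/
structure HodgeLLV (n : ℕ) (V A : Type*) [AddCommGroup V] [Module ℚ V] [Ring A]
    [Algebra ℚ A] where
  /-- the quadratic form on the second cohomology `V` -/
  q : V →ₗ[ℚ] V →ₗ[ℚ] ℚ
  q_symm : ∀ x y, q x y = q y x
  q_nondeg : ∀ x, (∀ y, q x y = 0) → x = 0
  /-- `A` is a finite-dimensional graded-commutative algebra, in degrees `0, ..., 4n`, with
  `A⁰ = ℚ` and `A² = V` -/
  gr : ℕ → Submodule ℚ A
  graded : GradedAlgebra gr
  finite : Module.Finite ℚ A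
  comm : ∀ i j a b, a ∈ gr i → b ∈ gr j → a * b = ((-1 : ℚ) ^ (i * j)) • (b * a)
  gr_zero : gr 0 = Submodule.span ℚ {1}
  gr_top : ∀ i, 4 * n < i → gr i = ⊥
  cls : V →ₗ[ℚ] A
  cls_inj : Function.Injective cls
  cls_range : LinearMap.range cls = gr 2
  /-- half the shifted degree operator: `i / 2 - n` in degree `i` -/
  deg : Module.End ℚ A
  deg_apply : ∀ i, ∀ a ∈ gr i, deg a = ((i : ℚ) / 2 - n) • a
  /-- the Lefschetz dual operators, of degree `-2`: for `q(y, y) ≠ 0`, the operator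
  `(2 / q(y, y)) lam y` completes cup product with `y` to an `sl₂`-triple -/
  lam : V →ₗ[ℚ] Module.End ℚ A
  lam_deg : ∀ y a, deg (lam y a) = lam y (deg a) - lam y a
  lam_sl2 : ∀ y a, cls y * lam y a - lam y (cls y * a) = q y y • deg a
  /-- they commute -/
  lam_comm : ∀ x y a, lam x (lam y a) = lam y (lam x a)
  /-- and the commutators `[x, lam y] - q(x, y) deg` are derivations of `A` -/
  lam_der : ∀ x y a b,
    (cls x * lam y (a * b) - lam y (cls x * (a * b)) - q x y • deg (a * b)) =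
      (cls x * lam y a - lam y (cls x * a) - q x y • deg a) * b +
        a * (cls x * lam y b - lam y (cls x * b) - q x y • deg b)
  /-- the class of the symplectic form -/
  sg : ℂ ⊗[ℚ] V
  sg_iso : qC q sg sg = 0
  sg_pos : qC q sg (conjV V sg) ≠ 0
  /-- a rational class of type `(1,1)` with positive square (an ample class), and the Hodge
  index theorem for its orthogonal complement in the Néron–Severi space -/
  ample : ∃ k : V, qC q sg (1 ⊗ₜ k) = 0 ∧ 0 < q k k ∧
    ∀ x : V, qC q sg (1 ⊗ₜ x) = 0 → q x k = 0 → x ≠ 0 → q x x < 0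
  /-- a positive definite Hermitian form (Hodge–Riemann) for which the adjoint of each operator
  `lam y` is the cup product with a class of degree 2 -/
  herm : InnerProductSpace.Core ℂ (ℂ ⊗[ℚ] A)
  herm_adj : ∀ y : V, ∃ z : ℂ ⊗[ℚ] V, ∀ a b : ℂ ⊗[ℚ] A,
    herm.inner ((lam y).baseChange ℂ a) b = herm.inner a (cls.baseChange ℂ z * b)

namespace HodgeLLV

variable {n : ℕ} {V A : Type*} [AddCommGroup V] [Module ℚ V] [Ring A] [Algebra ℚ A]
  (X : HodgeLLV n V A)

/-- Cup product with a class of degree 2. -/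
def cup : V →ₗ[ℚ] Module.End ℚ A := LinearMap.mul ℚ A ∘ₗ X.cls

/-- The rational classes of type `(1,1)`: the `x ∈ V` with `q(σ, x) = 0`. -/
def NS : Submodule ℚ V :=
  LinearMap.ker (((qC X.q X.sg).restrictScalars ℚ) ∘ₗ TensorProduct.mk ℚ ℂ V 1)

/-- The algebra of operators generated by the cup products with the rational `(1,1)`-classes and
their Lefschetz dual operators. -/
def lefAlg : Subalgebra ℚ (Module.End ℚ A) :=
  Algebra.adjoin ℚ {f | ∃ y ∈ X.NS, f = X.cup y ∨ f = X.lam y}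

/-- Cup product with `σ` on `ℂ ⊗ A`. -/
def cupSg : Module.End ℂ (ℂ ⊗[ℚ] A) := opC X.cup X.sg

/-- Contraction with the bivector dual to `σ`: the operator `lam σ̄ / q(σ, σ̄)`. -/
def lamSg : Module.End ℂ (ℂ ⊗[ℚ] A) :=
  (qC X.q X.sg (conjV V X.sg))⁻¹ • opC X.lam (conjV V X.sg)

/-- The Hodge operator `[σ, lam σ̄] / q(σ, σ̄) - deg`; it is `(p - q) / 2` on the Hodge piece of
type `(p, q)`. -/
def hodgeOp : Module.End ℂ (ℂ ⊗[ℚ] A) :=
  X.cupSg * X.lamSg - X.lamSg * X.cupSg - X.deg.baseChange ℂ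

/-- The Hodge piece of type `(p, q)`. -/
def hodge (p q : ℕ) : Submodule ℂ (ℂ ⊗[ℚ] A) :=
  (X.gr (p + q)).baseChange ℂ ⊓
    LinearMap.ker (X.hodgeOp - (((p : ℂ) - q) / 2) • (1 : Module.End ℂ (ℂ ⊗[ℚ] A)))

/-- The symplectic star operator: the Weyl element of the `sl₂` of `σ`. -/
def star : Module.End ℂ (ℂ ⊗[ℚ] A) :=
  IsNilpotent.exp X.cupSg * IsNilpotent.exp (-X.lamSg) * IsNilpotent.exp X.cupSg

/-- The inverse of `star`. -/
def starInv : Module.End ℂ (ℂ ⊗[ℚ] A) :=
  IsNilpotent.exp (-X.cupSg) * IsNilpotent.exp X.lamSg * IsNilpotent.exp (-X.cupSg)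

/-- For `a ∈ H^p(X, Ω^q)`: contraction with the polyvector class in `H^p(X, Λ^q T)` which
corresponds to `a` under the isomorphism `T ≅ Ω` given by `σ`. Pointwise, the symplectic star
operator conjugates the exterior product with a form into the contraction with the corresponding
polyvector. -/
def contr (a : ℂ ⊗[ℚ] A) : Module.End ℂ (ℂ ⊗[ℚ] A) :=
  X.star * LinearMap.mulLeft ℂ a * X.starInv

end HodgeLLV

/-- A Mukai transform: a rational linear isomorphism whose complexification commutes with the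
Hodge operators (it preserves the columns `p - q = const` of the Hodge diamond) and carries
contractions with polyvector classes to contractions with polyvector classes. -/
structure MukaiTransform {n : ℕ} {V A V' A' : Type*} [AddCommGroup V] [Module ℚ V] [Ring A]
    [Algebra ℚ A] [AddCommGroup V'] [Module ℚ V'] [Ring A'] [Algebra ℚ A']
    (X : HodgeLLV n V A) (X' : HodgeLLV n V' A') where
  Φ : A ≃ₗ[ℚ] A'
  hodge : ∀ a : ℂ ⊗[ℚ] A, Φ.toLinearMap.baseChange ℂ (X.hodgeOp a) =
    X'.hodgeOp (Φ.toLinearMap.baseChange ℂ a)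
  contraction : ∀ a : ℂ ⊗[ℚ] A, ∃ b : ℂ ⊗[ℚ] A', ∀ c : ℂ ⊗[ℚ] A,
    Φ.toLinearMap.baseChange ℂ (X.contr a c) = X'.contr b (Φ.toLinearMap.baseChange ℂ c)

end

end Pool.Agent.LLV
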