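import Pool.Agent.LLV.Model
import Pool.Agent.LLV.Conv
import Pool.Agent.HKO.Final

/-! Translation of the theorem to the structure `HodgeLLV`. -/

open scoped TensorProduct

namespace Pool.Agent.LLV

noncomputable section

variable {n : ℕ} {V A V' A' : Type*} [AddCommGroup V] [Module ℚ V] [Ring A] [Algebra ℚ A]
  [AddCommGroup V'] [Module ℚ V'] [Ring A'] [Algebra ℚ A']

lemma toHK_cupSg (X : HodgeLLV n V A) : (toHK X).cupSg = X.cupSg := by
  unfold HKO.HKCohomology.cupSg HodgeLLV.cupSg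
  rw [toHK_cup, toHK_sg]; rfl

lemma toHK_lamSg (X : HodgeLLV n V A) : (toHK X).lamSg = X.lamSg := by
  unfold HKO.HKCohomology.lamSg HodgeLLV.lamSg
  rw [toHK_lam, toHK_sg]; rfl

lemma toHK_hodgeOp (X : HodgeLLV n V A) : (toHK X).hodgeOp = X.hodgeOp := by
  unfold HKO.HKCohomology.hodgeOp HodgeLLV.hodgeOp
  rw [toHK_deg, toHK_cupSg, toHK_lamSg]

lemma toHK_star (X : HodgeLLV n V A) : (toHK X).star = X.star := by
  unfold HKO.HKCohomology.star HodgeLLV.star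
  rw [toHK_cupSg, toHK_lamSg]

lemma toHK_starInv (X : HodgeLLV n V A) : (toHK X).starInv = X.starInv := by
  unfold HKO.HKCohomology.starInv HodgeLLV.starInv
  rw [toHK_cupSg, toHK_lamSg]

lemma toHK_contr (X : HodgeLLV n V A) (a : ℂ ⊗[ℚ] A) : (toHK X).contr a = X.contr a := by
  unfold HKO.HKCohomology.contr HodgeLLV.contr
  rw [toHK_star, toHK_starInv]

lemma toHK_NS (X : HodgeLLV n V A) : (toHK X).NS = X.NS := by
  unfold HKO.HKCohomology.NS HodgeLLV.NS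
  rw [toHK_sg, toHK_q]; rfl

lemma toHK_lefAlg (X : HodgeLLV n V A) : HKO.lefAlg (toHK X) = X.lefAlg := by
  unfold HKO.lefAlg HodgeLLV.lefAlg
  rw [toHK_cup, toHK_lam, toHK_NS]

lemma toHK_hodge (X : HodgeLLV n V A) (p q : ℕ) : (toHK X).hodge p q = X.hodge p q := by
  unfold HKO.HKCohomology.hodge HodgeLLV.hodge
  rw [toHK_hodgeOp, toHK_gr]

/-- Translation of Mukai transforms. -/
def toMT {X : HodgeLLV n V A} {X' : HodgeLLV n V' A'} (F : MukaiTransform X X') :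
    HKO.MukaiTransform (toHK X) (toHK X') where
  Φ := F.Φ
  hodge a := by
    rw [toHK_hodgeOp, toHK_hodgeOp]; exact F.hodge a
  contraction a := by
    obtain ⟨b, hb⟩ := F.contraction a
    refine ⟨b, fun c => ?_⟩
    rw [toHK_contr, toHK_contr]; exact hb c

theorem final {X : HodgeLLV n V A} {X' : HodgeLLV n V' A'} (F : MukaiTransform X X') :
    ∃ T : A ≃ₐ[ℚ] A',
      (∀ i, (X.gr i).map T.toLinearMap = X'.gr i) ∧
      (∀ p q, (X.hodge p q).map (T.toLinearMap.baseChange ℂ) = X'.hodge p q) ∧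
      ∃ γ δ : Module.End ℚ A', γ ∈ X'.lefAlg ∧ δ ∈ X'.lefAlg ∧ γ * δ = 1 ∧ δ * γ = 1 ∧
        ∀ a, T a = γ (F.Φ a) := by
  obtain ⟨T, h1, h2, γ, δ, h3, h4, h5, h6, h7⟩ := HKO.final (toMT F)
  rw [toHK_gr, toHK_gr] at h1
  rw [toHK_lefAlg] at h3 h4
  refine ⟨T, h1, fun p q => ?_, γ, δ, h3, h4, h5, h6, h7⟩
  have := h2 p q
  rwa [toHK_hodge, toHK_hodge] at this

end

end Pool.Agent.LLV
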